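import Pool.Agent.Y440.A.Stm

/-!
# Q440-WLOG: relabelling eight points
-/

set_option autoImplicit false

open Finset

namespace Pool.Agent.Y971.Q440

open Pool.Agent.Y440.A

/-- a permutation of eight points restricts to the complements of a point -/
lemma exists_restr (π : Equiv.Perm (Fin 8)) (j : Fin 8) :
    ∃ ρ : Equiv.Perm (Fin 7), ∀ k, (π j).succAbove (ρ k) = π (j.succAbove k) := by
  have hne : ∀ k, π (j.succAbove k) ≠ π j := fun k h => Fin.succAbove_ne j k (π.injective h)
  have hex : ∀ k, ∃ r, (π j).succAbove r = π (j.succAbove k) := fun k =>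
    Fin.exists_succAbove_eq (hne k)
  choose r hr using hex
  have hinj : Function.Injective r := by
    intro k l hkl
    have h1 : π (j.succAbove k) = π (j.succAbove l) := by rw [← hr, ← hr, hkl]
    exact Fin.succAbove_right_injective (π.injective h1)
  exact ⟨Equiv.ofBijective r (Finite.injective_iff_bijective.mp hinj), hr⟩

/-- **Task WLOG.** -/
theorem t (h : S_sym) : S_wlog := by
  intro R V E hE hR x
  obtain ⟨i, hi⟩ := Finite.exists_min (fun i : Fin 8 => t7f E (fun k : Fin 7 => x (i.succAbove k)))
  obtain ⟨τ, hτ⟩ := hR (fun k => x (i.succAbove k))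
  set π : Equiv.Perm (Fin 8) := (finSuccEquiv' (Fin.last 7)).trans
    ((Equiv.optionCongr τ).trans (finSuccEquiv' i).symm) with hπ
  have hπc : ∀ k : Fin 7, π k.castSucc = i.succAbove (τ k) := by
    intro k
    rw [hπ]
    have h1 : finSuccEquiv' (Fin.last 7) k.castSucc = some k := by
      rw [← Fin.succAbove_last]
      exact finSuccEquiv'_succAbove _ _
    change (finSuccEquiv' i).symm (Option.map τ (finSuccEquiv' (Fin.last 7) k.castSucc)) = _
    rw [h1, Option.map_some, finSuccEquiv'_symm_some]
  refine ⟨π, ?_, ?_⟩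
  · have h1 : (fun k : Fin 7 => x (π k.castSucc)) = (fun k => x (i.succAbove k)) ∘ τ := by
      funext k
      rw [hπc]
      rfl
    rw [h1]
    exact hτ
  · intro j
    have h1 : (fun k : Fin 7 => x (π k.castSucc)) = (fun k => x (i.succAbove k)) ∘ τ := by
      funext k
      rw [hπc]
      rfl
    obtain ⟨ρ, hρ⟩ := exists_restr π j
    have h2 : (fun k : Fin 7 => x (π (j.succAbove k))) = (fun k => x ((π j).succAbove k)) ∘ ρ := by
      funext k
      rw [← hρ]
      rfl
    rw [h1, h2, (h.2 V E hE).2, (h.2 V E hE).2]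
    exact hi (π j)

end Pool.Agent.Y971.Q440
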